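import Pool.Agent.Lib.MP_359fef_co.Base

/-!
# Task F: combinatorial assembly
-/

set_option linter.unusedSectionVars false
set_option linter.unusedVariables false

namespace Pool.Agent.MP_359fef_co

open Finset Matrix Module

universe u

variable {K : Type u} [Field K] [Fintype K] {n : ℕ}

namespace FAux

variable (P : Matrix (Fin n) (Fin n) K → Prop) (x : ℚ)

lemma mem_Rset {a : K} {t : Matrix (Fin n) (Fin n) K} :
    t ∈ Rset P a ↔ P t ∧ IsRefl t ∧ t.det = a := by
  classical
  simp [Rset]

/-! ### F1 -/

open Classical in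
/-- number of factorizations along a list -/
noncomputable def numL : List K → Matrix (Fin n) (Fin n) K → ℚ
  | [], g => if g = 1 then 1 else 0
  | a :: l, g => ∑ t ∈ Rset P a, numL l (t⁻¹ * g)

open Classical in
/-- ways of deleting entries equal to one: (number of deleted entries, remaining list) -/
noncomputable def subs : List K → List (ℕ × List K)
  | [] => [(0, [])]
  | a :: l => (subs l).map (fun p => (p.1, a :: p.2)) ++
      if a = 1 then (subs l).map (fun p => (p.1 + 1, p.2)) else []

lemma subs_spec (L : List K) : ∀ p ∈ subs L, p.1 + p.2.length = L.length ∧ p.2.prod = L.prod ∧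
    ∀ b ∈ p.2, b ∈ L := by
  classical
  induction L with
  | nil =>
    intro p hp
    simp only [subs, List.mem_singleton] at hp
    subst hp; simp
  | cons a L ih =>
    intro p hp
    rw [subs, List.mem_append] at hp
    rcases hp with hp | hp
    · obtain ⟨p', hp', rfl⟩ := List.mem_map.1 hp
      obtain ⟨h1, h2, h3⟩ := ih p' hp'
      refine ⟨by simp only [List.length_cons]; omega, by simp [h2], ?_⟩
      intro b hb
      rcases List.mem_cons.1 hb with rfl | hb
      · exact List.mem_cons_self
      · exact List.mem_cons_of_mem _ (h3 b hb)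
    · split_ifs at hp with ha
      · obtain ⟨p', hp', rfl⟩ := List.mem_map.1 hp
        obtain ⟨h1, h2, h3⟩ := ih p' hp'
        refine ⟨by simp only [List.length_cons]; omega, by simp [h2, ha], ?_⟩
        intro b hb
        exact List.mem_cons_of_mem _ (h3 b hb)
      · exact absurd hp (List.not_mem_nil)

open Classical in
lemma subs_sum (L : List K) : ∀ F : ℕ → ℚ, ((subs L).map (fun p => F p.1)).sum =
    ∑ k ∈ range (L.count 1 + 1), ((L.count 1).choose k : ℚ) * F k := by
  induction L with
  | nil => intro F; simp [subs]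
  | cons a L ih =>
    intro F
    rw [subs, List.map_append, List.sum_append, List.map_map]
    have e1 : ((fun p : ℕ × List K => F p.1) ∘ fun p : ℕ × List K => (p.1, a :: p.2)) =
        fun p => F p.1 := rfl
    rw [e1, ih F]
    by_cases ha : a = 1
    · subst ha
      rw [if_pos rfl, List.map_map, List.count_cons_self]
      have e2 : ((fun p : ℕ × List K => F p.1) ∘ fun p : ℕ × List K => (p.1 + 1, p.2)) =
        fun p => (fun k => F (k + 1)) p.1 := rfl
      rw [e2, ih (fun k => F (k + 1))]
      set m := L.count 1 with hm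
      rw [Finset.sum_range_succ' _ (m + 1)]
      have e3 : ∀ k ∈ range (m + 1), (((m + 1).choose (k + 1) : ℕ) : ℚ) * F (k + 1) =
          ((m.choose k : ℕ) : ℚ) * F (k + 1) + ((m.choose (k + 1) : ℕ) : ℚ) * F (k + 1) := by
        intro k _
        rw [Nat.choose_succ_succ]; push_cast; ring
      rw [Finset.sum_congr rfl e3, Finset.sum_add_distrib]
      have e4 : ∑ k ∈ range (m + 1), ((m.choose (k + 1) : ℕ) : ℚ) * F (k + 1) +
          (((m + 1).choose 0 : ℕ) : ℚ) * F 0 = ∑ k ∈ range (m + 1), ((m.choose k : ℕ) : ℚ) * F k := by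
        rw [Finset.sum_range_succ, Nat.choose_succ_self, Finset.sum_range_succ']
        simp
      rw [← e4]
      ring
    · rw [if_neg ha]
      have e5 : (a :: L).count 1 = L.count 1 := by
        rw [List.count_cons, if_neg (by simpa using ha), add_zero]
      rw [e5]
      simp

lemma numL_eq (L : List K) : ∀ g : Matrix (Fin n) (Fin n) K,
    numL P L g = ((subs L).map (fun p => (-qInt x n) ^ p.1 * cf P x p.2 g)).sum := by
  classical
  induction L with
  | nil => intro g; simp [numL, subs, cf]
  | cons a L ih =>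
    intro g
    rw [numL, subs, List.map_append, List.sum_append, List.map_map]
    have h1 : ∑ t ∈ Rset P a, numL P L (t⁻¹ * g) =
        ((subs L).map (fun p => (-qInt x n) ^ p.1 * ∑ t ∈ Rset P a, cf P x p.2 (t⁻¹ * g))).sum := by
      have : ∀ t, numL P L (t⁻¹ * g) =
        ((subs L).map (fun p => (-qInt x n) ^ p.1 * cf P x p.2 (t⁻¹ * g))).sum := fun t => ih _
      simp only [this]
      generalize subs L = M
      induction M with
      | nil => simp
      | cons p M ihM =>
        simp only [List.map_cons, List.sum_cons]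
        rw [Finset.sum_add_distrib, ihM, Finset.mul_sum]
    rw [h1]
    have h2 : ((fun p : ℕ × List K => (-qInt x n) ^ p.1 * cf P x p.2 g) ∘
        fun p : ℕ × List K => (p.1, a :: p.2)) = fun p => (-qInt x n) ^ p.1 *
          ∑ t ∈ Rset P a, cf P x p.2 (t⁻¹ * g) +
            (-qInt x n) ^ p.1 * (if a = 1 then qInt x n * cf P x p.2 g else 0) := by
      funext p
      simp only [Function.comp, cf]
      ring
    rw [h2, List.sum_map_add, add_assoc]
    by_cases ha : a = 1
    · simp only [if_pos ha]
      rw [List.map_map, ← List.sum_map_add]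
      have h3 : ((subs L).map (fun p : ℕ × List K => (-qInt x n) ^ p.1 * (qInt x n * cf P x p.2 g) +
          ((fun p : ℕ × List K => (-qInt x n) ^ p.1 * cf P x p.2 g) ∘
            fun p : ℕ × List K => (p.1 + 1, p.2)) p)).sum = 0 := by
        apply List.sum_eq_zero
        intro y hy
        obtain ⟨p, _, rfl⟩ := List.mem_map.1 hy
        simp only [Function.comp]
        rw [pow_succ]; ring
      rw [h3, add_zero]
    · simp [if_neg ha]

open Classical in
lemma count_ofFn : ∀ (l : ℕ) (a : Fin l → K),
    (List.ofFn a).count 1 = Nat.card {i // a i = 1} := by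
  intro l
  induction l with
  | zero => intro a; simp
  | succ l ih =>
    intro a
    have h1 : ∀ (m : ℕ) (b : Fin m → K), Nat.card {i // b i = 1} = ∑ i, if b i = 1 then 1 else 0 := by
      intro m b
      rw [Nat.card_eq_fintype_card, Fintype.card_subtype, Finset.card_filter]
    rw [List.ofFn_succ, List.count_cons, ih, h1, h1, Fin.sum_univ_succ, add_comm]
    congr 1
    by_cases h : a 0 = 1 <;> simp [h]

lemma numFact_numL (hP : ∀ g, P g → IsUnit g.det) : ∀ (l : ℕ) (a : Fin l → K)
    (g : Matrix (Fin n) (Fin n) K), (numFact P g a : ℚ) = numL P (List.ofFn a) g := by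
  classical
  intro l
  induction l with
  | zero =>
    intro a g
    rw [numFact, List.ofFn_zero, numL]
    by_cases h : g = 1
    · rw [if_pos h]
      have : Nat.card {t : Fin 0 → Matrix (Fin n) (Fin n) K //
          (∀ i, P (t i) ∧ IsRefl (t i) ∧ (t i).det = a i) ∧ (List.ofFn t).prod = g} = 1 := by
        rw [Nat.card_eq_one_iff_unique]
        constructor
        · exact ⟨fun s t => Subtype.ext (Subsingleton.elim _ _)⟩
        · exact ⟨⟨Fin.elim0, fun i => i.elim0, by simp [h]⟩⟩
      rw [this]; norm_num
    · rw [if_neg h]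
      have : Nat.card {t : Fin 0 → Matrix (Fin n) (Fin n) K //
          (∀ i, P (t i) ∧ IsRefl (t i) ∧ (t i).det = a i) ∧ (List.ofFn t).prod = g} = 0 := by
        rw [Nat.card_eq_zero]
        left
        refine ⟨fun t => h ?_⟩
        have := t.2.2
        simpa using this.symm
      rw [this]; norm_num
  | succ l ih =>
    intro a g
    rw [List.ofFn_succ, numL]
    have h1 : ∀ t ∈ Rset P (a 0), numL P (List.ofFn fun i => a i.succ) (t⁻¹ * g) =
        (numFact P (t⁻¹ * g) (fun i : Fin l => a i.succ) : ℚ) := fun t _ => (ih _ _).symm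
    rw [Finset.sum_congr rfl h1, ← Nat.cast_sum]
    congr 1
    have e : {t : Fin (l + 1) → Matrix (Fin n) (Fin n) K //
        (∀ i, P (t i) ∧ IsRefl (t i) ∧ (t i).det = a i) ∧ (List.ofFn t).prod = g} ≃
        Σ t : {t // t ∈ Rset P (a 0)}, {s : Fin l → Matrix (Fin n) (Fin n) K //
          (∀ i, P (s i) ∧ IsRefl (s i) ∧ (s i).det = a i.succ) ∧
            (List.ofFn s).prod = t.1⁻¹ * g} :=
      { toFun := fun t => ⟨⟨t.1 0, (mem_Rset P).2 (t.2.1 0)⟩, ⟨fun i => t.1 i.succ,
          fun i => t.2.1 i.succ, by
            have h2 := t.2.2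
            rw [List.ofFn_succ, List.prod_cons] at h2
            have hu := hP _ (t.2.1 0).1
            have h5 := congrArg (fun M => (t.1 0)⁻¹ * M) h2
            beta_reduce at h5
            rw [← mul_assoc, Matrix.nonsing_inv_mul _ hu, one_mul] at h5
            exact h5⟩⟩
        invFun := fun p => ⟨Fin.cons p.1.1 p.2.1, fun i => by
            refine Fin.cases ?_ (fun j => ?_) i
            · simpa using (mem_Rset P).1 p.1.2
            · simpa using p.2.2.1 j, by
            have hu := hP _ ((mem_Rset P).1 p.1.2).1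
            rw [List.ofFn_succ, List.prod_cons]
            simp only [Fin.cons_zero, Fin.cons_succ]
            have h3 := p.2.2.2
            have h4 : (List.ofFn fun i => p.2.1 i).prod = p.1.1⁻¹ * g := h3
            rw [h4, ← mul_assoc, Matrix.mul_nonsing_inv _ hu, one_mul]⟩
        left_inv := fun t => by
          apply Subtype.ext
          funext i
          refine Fin.cases ?_ (fun j => ?_) i <;> simp
        right_inv := fun p => by
          obtain ⟨⟨t, ht⟩, ⟨s, hs⟩⟩ := p
          rfl }
    rw [numFact, Nat.card_congr e, Nat.card_sigma]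
    exact Finset.sum_coe_sort (Rset P (a 0)) (fun t => numFact P (t⁻¹ * g) fun i => a i.succ)

end FAux

open FAux

/-- Task F1: from `cf` to `numFact` (inclusion-exclusion over the entries equal to 1). -/
theorem numFact_eq (P : Matrix (Fin n) (Fin n) K → Prop) (hP : ∀ g, P g → IsUnit g.det) (x : ℚ)
    (c : Matrix (Fin n) (Fin n) K) (hc1 : c ≠ 1) (A : Set K)
    (hmain : ∀ l : List K, l ≠ [] → (∀ a ∈ l, a ∈ A) → l.prod = c.det →
      cf P x l c = kapVal x n l.length)
    (hn : 1 ≤ n) (l : ℕ) (a : Fin l → K) (hl : 1 ≤ l) (haA : ∀ i, a i ∈ A)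
    (hprod : ∏ i, a i = c.det) :
    (numFact P c a : ℚ) = conjValue x n l (Nat.card {i // a i = 1}) := by
  classical
  rw [numFact_numL P hP, numL_eq P x]
  have h1 : ∀ p ∈ subs (List.ofFn a), (-qInt x n) ^ p.1 * cf P x p.2 c =
      (fun k => (-qInt x n) ^ k * kapVal x n (l - k)) p.1 := by
    intro p hp
    obtain ⟨h2, h3, h4⟩ := subs_spec _ p hp
    rw [List.length_ofFn] at h2
    simp only
    congr 1
    have hlen : l - p.1 = p.2.length := by omega
    rw [hlen]
    by_cases hp2 : p.2 = []
    · rw [hp2]
      simp only [cf, List.length_nil, kapVal]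
      rw [if_neg hc1, if_neg (by omega)]
    · refine hmain p.2 hp2 (fun b hb => ?_) ?_
      · obtain ⟨i, hi⟩ := List.mem_ofFn.1 (h4 b hb)
        rw [← hi]; exact haA i
      · rw [h3, List.prod_ofFn, hprod]
  rw [List.map_congr_left h1, subs_sum (List.ofFn a) (fun k => (-qInt x n) ^ k * kapVal x n (l - k)),
    count_ofFn, conjValue]
  set m := Nat.card {i // a i = 1} with hm
  rw [Finset.mul_sum, Finset.sum_filter]
  refine Finset.sum_congr rfl fun k _ => ?_
  rw [kapVal]
  by_cases hk : n + k ≤ l
  · rw [if_pos hk, if_pos (by omega)]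
    have e1 : l - 1 = k + (l - k - 1) := by omega
    rw [e1, pow_add, neg_pow]
    ring
  · rw [if_neg hk, if_neg (by omega)]
    ring

namespace FAux

variable (P : Matrix (Fin n) (Fin n) K → Prop) (x : ℚ)

/-! ### F2 -/

/-- convolution with `R_a` on the left -/
noncomputable def La (a : K) (f : Matrix (Fin n) (Fin n) K → ℚ)
    (g : Matrix (Fin n) (Fin n) K) : ℚ :=
  open Classical in
  ∑ t ∈ Rset P a, f (t⁻¹ * g) + if a = 1 then qInt x n * f g else 0

lemma La_op (a b : K) (f : Matrix (Fin n) (Fin n) K → ℚ) :
    La P x a (op P x b f) = op P x b (La P x a f) := by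
  classical
  funext g
  simp only [La, op]
  have h1 : ∑ t ∈ Rset P a, (∑ s ∈ Rset P b, f (t⁻¹ * g * s) +
      if b = 1 then qInt x n * f (t⁻¹ * g) else 0) =
      ∑ s ∈ Rset P b, ∑ t ∈ Rset P a, f (t⁻¹ * (g * s)) +
        ∑ t ∈ Rset P a, if b = 1 then qInt x n * f (t⁻¹ * g) else 0 := by
    rw [Finset.sum_add_distrib, Finset.sum_comm]
    simp only [mul_assoc]
  rw [h1, Finset.sum_add_distrib]
  by_cases ha : a = 1 <;> by_cases hb : b = 1 <;>
    simp only [ha, hb, if_true, if_false, Finset.sum_const_zero, add_zero, zero_add, mul_add,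
      Finset.mul_sum] <;> ring

lemma La_opL (a : K) (L : List K) : ∀ f : Matrix (Fin n) (Fin n) K → ℚ,
    La P x a (opL P x L f) = opL P x L (La P x a f) := by
  induction L with
  | nil => intro f; rfl
  | cons b L ih =>
    intro f
    rw [opL, opL, ih, La_op]

/-- the delta function at `1` -/
noncomputable def dl (g : Matrix (Fin n) (Fin n) K) : ℚ :=
  open Classical in if g = 1 then 1 else 0

lemma cf_cons (a : K) (l : List K) : cf P x (a :: l) = La P x a (cf P x l) := by
  funext g; rfl

lemma isRefl_inv {t : Matrix (Fin n) (Fin n) K} (hu : IsUnit t.det) (ht : IsRefl t) :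
    IsRefl t⁻¹ := by
  obtain ⟨h1, H, h2, h3⟩ := ht
  refine ⟨fun h => h1 ?_, H, h2, fun y hy => ?_⟩
  · have := Matrix.mul_nonsing_inv t hu
    rw [h, mul_one] at this
    exact this
  · have h4 := h3 y hy
    calc t⁻¹ *ᵥ y = t⁻¹ *ᵥ (t *ᵥ y) := by rw [h4]
      _ = y := by rw [Matrix.mulVec_mulVec, Matrix.nonsing_inv_mul t hu, Matrix.one_mulVec]

variable (hP : ∀ g, P g → IsUnit g.det) (hinv : ∀ g, P g → P g⁻¹)

include hP hinv in
lemma inv_mem_Rset {t : Matrix (Fin n) (Fin n) K} {a : K} (ht : t ∈ Rset P a) :
    t⁻¹ ∈ Rset P a⁻¹ := by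
  obtain ⟨h1, h2, h3⟩ := (mem_Rset P).1 ht
  refine (mem_Rset P).2 ⟨hinv t h1, isRefl_inv (hP t h1) h2, ?_⟩
  rw [Matrix.det_nonsing_inv, h3, Ring.inverse_eq_inv']

include hP hinv in
lemma op_dl (b : K) : op P x b⁻¹ dl = La P x b (dl (n := n) (K := K)) := by
  classical
  funext g
  simp only [op, La]
  have hb : (b⁻¹ = 1) ↔ (b = 1) := inv_eq_one
  congr 1
  · -- both sums are the indicator of `g ∈ Rset P b`
    have h1 : ∑ t ∈ Rset P b⁻¹, dl (g * t) = if g ∈ Rset P b then 1 else 0 := by
      by_cases hg : g ∈ Rset P b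
      · rw [if_pos hg, Finset.sum_eq_single g⁻¹]
        · have hu := hP g ((mem_Rset P).1 hg).1
          simp [dl, Matrix.mul_nonsing_inv g hu]
        · intro t ht hne
          rw [dl, if_neg]
          intro h
          exact hne (Matrix.inv_eq_right_inv h).symm
        · intro h; exact absurd (inv_mem_Rset P hP hinv hg) h
      · rw [if_neg hg]
        apply Finset.sum_eq_zero
        intro t ht
        rw [dl, if_neg]
        intro h
        apply hg
        have hu := hP t ((mem_Rset P).1 ht).1
        have h2 := inv_mem_Rset P hP hinv ht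
        rw [inv_inv] at h2
        rwa [Matrix.inv_eq_left_inv h] at h2
    have h2 : ∑ t ∈ Rset P b, dl (t⁻¹ * g) = if g ∈ Rset P b then 1 else 0 := by
      by_cases hg : g ∈ Rset P b
      · rw [if_pos hg, Finset.sum_eq_single g]
        · have hu := hP g ((mem_Rset P).1 hg).1
          simp [dl, Matrix.nonsing_inv_mul g hu]
        · intro t ht hne
          rw [dl, if_neg]
          intro h
          have hu := hP t ((mem_Rset P).1 ht).1
          apply hne
          calc t = t * (t⁻¹ * g) := by rw [h, mul_one]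
            _ = g := by rw [← mul_assoc, Matrix.mul_nonsing_inv t hu, one_mul]
        · intro h; exact absurd hg h
      · rw [if_neg hg]
        apply Finset.sum_eq_zero
        intro t ht
        rw [dl, if_neg]
        intro h
        apply hg
        have hu := hP t ((mem_Rset P).1 ht).1
        have : t = g := by
          calc t = t * (t⁻¹ * g) := by rw [h, mul_one]
            _ = g := by rw [← mul_assoc, Matrix.mul_nonsing_inv t hu, one_mul]
        rwa [← this]
    rw [h1, h2]
  · by_cases h : b = 1
    · rw [if_pos (hb.2 h), if_pos h]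
    · rw [if_neg (fun h' => h (hb.1 h')), if_neg h]

include hP hinv in
lemma cf_eq (l : List K) : cf P x l = opL P x (l.map (·⁻¹)) (dl (n := n) (K := K)) := by
  induction l with
  | nil => rfl
  | cons b l ih =>
    rw [cf_cons, ih, La_opL, List.map_cons, opL, op_dl P x hP hinv]

include hP in
lemma La_dl (a : K) : La P x a (dl (n := n) (K := K)) = fa P x a := by
  classical
  funext g
  simp only [La, fa]
  congr 1
  · by_cases hg : g ∈ Rset P a
    · rw [if_pos hg, Finset.sum_eq_single g]
      · have hu := hP g ((mem_Rset P).1 hg).1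
        simp [dl, Matrix.nonsing_inv_mul g hu]
      · intro t ht hne
        rw [dl, if_neg]
        intro h
        have hu := hP t ((mem_Rset P).1 ht).1
        apply hne
        calc t = t * (t⁻¹ * g) := by rw [h, mul_one]
          _ = g := by rw [← mul_assoc, Matrix.mul_nonsing_inv t hu, one_mul]
      · intro h; exact absurd hg h
    · rw [if_neg hg]
      apply Finset.sum_eq_zero
      intro t ht
      rw [dl, if_neg]
      intro h
      apply hg
      have hu := hP t ((mem_Rset P).1 ht).1
      have : t = g := by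
        calc t = t * (t⁻¹ * g) := by rw [h, mul_one]
          _ = g := by rw [← mul_assoc, Matrix.mul_nonsing_inv t hu, one_mul]
      rwa [← this]
  · by_cases h : a = 1 <;> by_cases h' : g = 1 <;> simp [h, h', dl]

end FAux

/-- Task F2: coefficient of `c` in terms of the operators. -/
theorem cf_eq_opL (P : Matrix (Fin n) (Fin n) K → Prop) (hP : ∀ g, P g → IsUnit g.det)
    (hmul : ∀ g g', P g → P g' → P (g * g')) (hinv : ∀ g, P g → P g⁻¹) (x : ℚ)
    (a : K) (l : List K) (c : Matrix (Fin n) (Fin n) K) (hc : P c) :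
    cf P x (a :: l) c = opL P x (l.map (·⁻¹)) (fa P x a) c := by
  rw [cf_cons, cf_eq P x hP hinv, La_opL, La_dl P x hP]

namespace FAux

variable (P : Matrix (Fin n) (Fin n) K → Prop) (x : ℚ)

lemma opL_congr (hmul : ∀ g g', P g → P g' → P (g * g')) (L : List K) :
    ∀ (f f' : Matrix (Fin n) (Fin n) K → ℚ) (c : Matrix (Fin n) (Fin n) K), P c →
      (∀ g, P g → g.det = c.det * L.prod → f g = f' g) → opL P x L f c = opL P x L f' c := by
  classical
  induction L with
  | nil =>
    intro f f' c hc h
    exact h c hc (by simp)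
  | cons b L ih =>
    intro f f' c hc h
    rw [opL, opL]
    refine ih _ _ c hc fun g hg hd => ?_
    simp only [op]
    congr 1
    · refine Finset.sum_congr rfl fun t ht => ?_
      obtain ⟨h1, h2, h3⟩ := (mem_Rset P).1 ht
      apply h _ (hmul g t hg h1)
      rw [Matrix.det_mul, hd, h3, List.prod_cons]; ring
    · by_cases hb : b = 1
      · rw [if_pos hb, if_pos hb, h g hg]
        rw [hd, List.prod_cons, hb, one_mul]
      · rw [if_neg hb, if_neg hb]

end FAux

/-- Task F3: determinants: `fa` may be replaced by the sum over all determinants. -/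
theorem opL_fa (P : Matrix (Fin n) (Fin n) K → Prop) (hP : ∀ g, P g → IsUnit g.det)
    (x : ℚ) (a : K) (l : List K) (c : Matrix (Fin n) (Fin n) K) (hc : P c)
    (hprod : a * l.prod = c.det) (hmul : ∀ g g', P g → P g' → P (g * g')) :
    opL P x (l.map (·⁻¹)) (fa P x a) c =
      opL P x (l.map (·⁻¹)) (fun g => open Classical in
        (if P g ∧ IsRefl g then 1 else 0) + if g = 1 then qInt x n else 0) c := by
  classical
  refine opL_congr P x hmul _ _ _ c hc fun g hg hd => ?_
  have hu : c.det ≠ 0 := (hP c hc).ne_zero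
  have hl0 : l.prod ≠ 0 := fun h => hu (by rw [← hprod, h, mul_zero])
  have hd' : g.det = a := by
    have h1 : (l.map (·⁻¹)).prod = l.prod⁻¹ := by
      rw [List.prod_inv]
    rw [hd, h1, ← hprod, mul_assoc, mul_inv_cancel₀ hl0, mul_one]
  rw [fa]
  congr 1
  · by_cases h : P g ∧ IsRefl g
    · rw [if_pos h, if_pos ((mem_Rset P).2 ⟨h.1, h.2, hd'⟩)]
    · rw [if_neg h, if_neg (fun h' => h ⟨((mem_Rset P).1 h').1, ((mem_Rset P).1 h').2.1⟩)]
  · by_cases h : g = 1
    · have ha : a = 1 := by rw [← hd', h, Matrix.det_one]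
      rw [if_pos ⟨ha, h⟩, if_pos h]
    · rw [if_neg (fun h' => h h'.2), if_neg h]

end Pool.Agent.MP_359fef_co
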