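import Pool.Agent.Lib.MP_359fef_co.Base

/-!
# Task Q: two q-identities
-/

namespace Pool.Agent.MP_359fef_co

open Finset

namespace QAux

open Polynomial in
/-- `J_r = ∏_{i<r} (z - x^i)` -/
noncomputable def J (x : ℚ) (r : ℕ) : ℚ[X] := ∏ i ∈ range r, (Polynomial.X - Polynomial.C (x ^ i))

lemma J_zero (x : ℚ) : J x 0 = 1 := by simp [J]

lemma J_succ (x : ℚ) (r : ℕ) :
    J x (r + 1) = J x r * (Polynomial.X - Polynomial.C (x ^ r)) := by
  rw [J, Finset.prod_range_succ, J]

lemma coeff_succ_succ (x : ℚ) (r k : ℕ) :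
    (J x (r + 1)).coeff (k + 1) = (J x r).coeff k - x ^ r * (J x r).coeff (k + 1) := by
  rw [J_succ, mul_sub, Polynomial.coeff_sub, Polynomial.coeff_mul_X, Polynomial.coeff_mul_C]
  ring

lemma coeff_succ_zero (x : ℚ) (r : ℕ) :
    (J x (r + 1)).coeff 0 = - x ^ r * (J x r).coeff 0 := by
  rw [J_succ, mul_sub, Polynomial.coeff_sub, Polynomial.coeff_mul_C, Polynomial.mul_coeff_zero]
  simp
  ring

lemma coeff_zero_succ (x : ℚ) (k : ℕ) : (J x 0).coeff (k + 1) = 0 := by
  rw [J_zero, Polynomial.coeff_one]; simp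

lemma coeff_zero_zero (x : ℚ) : (J x 0).coeff 0 = 1 := by
  rw [J_zero, Polynomial.coeff_one]; simp

lemma coeff_large (x : ℚ) : ∀ (r k : ℕ), r < k → (J x r).coeff k = 0 := by
  intro r
  induction r with
  | zero =>
    intro k hk
    obtain ⟨k, rfl⟩ : ∃ j, k = j + 1 := ⟨k - 1, by omega⟩
    exact coeff_zero_succ x k
  | succ r ih =>
    intro k hk
    obtain ⟨k, rfl⟩ : ∃ j, k = j + 1 := ⟨k - 1, by omega⟩
    rw [coeff_succ_succ, ih k (by omega), ih (k + 1) (by omega)]; ring

/-- the two first order relations, together -/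
lemma R12 (x : ℚ) (s : ℕ) :
    (∀ k, (x ^ (k + 1) - 1) * (J x (s + 1)).coeff (k + 1) = (x ^ (s + 1) - 1) * (J x s).coeff k) ∧
    (∀ k, (x ^ k - x ^ (s + 1)) * (J x (s + 1)).coeff k =
      (x ^ (s + 1) - 1) * x ^ s * (J x s).coeff k) := by
  have h12 : ∀ s, (∀ k, (x ^ (k + 1) - 1) * (J x (s + 1)).coeff (k + 1) =
      (x ^ (s + 1) - 1) * (J x s).coeff k) →
      (∀ k, (x ^ k - x ^ (s + 1)) * (J x (s + 1)).coeff k =
      (x ^ (s + 1) - 1) * x ^ s * (J x s).coeff k) := by
    intro s h k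
    rcases k with _ | k
    · rw [coeff_succ_zero]; ring
    · have h1 := h k
      have h2 := coeff_succ_succ x s k
      have h3 : (J x s).coeff k = (J x (s + 1)).coeff (k + 1) + x ^ s * (J x s).coeff (k + 1) := by
        rw [h2]; ring
      rw [h3] at h1
      linear_combination h1
  suffices h : ∀ k, (x ^ (k + 1) - 1) * (J x (s + 1)).coeff (k + 1) =
      (x ^ (s + 1) - 1) * (J x s).coeff k from ⟨h, h12 s h⟩
  induction s with
  | zero =>
    intro k
    rw [coeff_succ_succ]
    rcases k with _ | k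
    · rw [coeff_zero_succ, coeff_zero_zero]; ring
    · rw [coeff_zero_succ, coeff_zero_succ]; ring
  | succ s ih =>
    intro k
    have h2 := h12 s ih k
    rw [coeff_succ_succ, mul_sub]
    have h1 := ih k
    linear_combination x * h2 - x ^ (s + 1) * h1

lemma R3 (x : ℚ) (s k : ℕ) :
    x ^ s * (x ^ (k + 1) - 1) * (J x s).coeff (k + 1) = x * (x ^ k - x ^ s) * (J x s).coeff k := by
  rcases s with _ | s
  · rw [coeff_zero_succ]
    rcases k with _ | k
    · simp
    · rw [coeff_zero_succ]; ring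
  · have h1 := (R12 x s).1 k
    have h2 := (R12 x s).2 k
    linear_combination x ^ (s + 1) * h1 - x * h2

/-- the coefficientwise form of the recursion in `m` -/
lemma key (x : ℚ) (hx : x ≠ 0) (s k : ℕ) :
    (J x (s + 1)).coeff k / x ^ k -
      (x ^ (k + 2) - 1) * (x ^ (k + 1) - 1) * (J x (s + 1)).coeff (k + 2) / x ^ (k + 2) =
    (J x (s + 1)).coeff k / x ^ (s + 1) + (1 / x ^ (s + 1) - 1) * (J x s).coeff k := by
  have h1 := (R12 x s).1 (k + 1)
  have h2 := (R12 x s).2 k
  have h3 := R3 x s k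
  have hk : x ^ k ≠ 0 := pow_ne_zero _ hx
  have hs : x ^ s ≠ 0 := pow_ne_zero _ hx
  have h1' : (x ^ (k + 2) - 1) * (x ^ (k + 1) - 1) * (J x (s + 1)).coeff (k + 2) =
      (x ^ (s + 1) - 1) * ((x ^ (k + 1) - 1) * (J x s).coeff (k + 1)) := by
    have h0 : (x ^ (k + 2) - 1) * (J x (s + 1)).coeff (k + 2) =
      (x ^ (s + 1) - 1) * (J x s).coeff (k + 1) := h1
    linear_combination (x ^ (k + 1) - 1) * h0
  have h3' : (x ^ (k + 1) - 1) * (J x s).coeff (k + 1) =
      x * (x ^ k - x ^ s) * (J x s).coeff k / x ^ s := by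
    rw [eq_div_iff hs]; linear_combination h3
  rw [h1', h3']
  rw [pow_succ] at h2 ⊢
  field_simp
  have e : x ^ (k + 2) = x ^ k * x ^ 2 := pow_add x k 2
  rw [e]
  linear_combination (-(x ^ k * x ^ 2)) * h2

lemma sum_coeff (x : ℚ) (r : ℕ) : ∑ k ∈ range (r + 1), (J x r).coeff k = (J x r).eval 1 := by
  have h : (J x r).natDegree < r + 1 := by
    have : (J x r).natDegree ≤ r :=
      Polynomial.natDegree_le_iff_coeff_eq_zero.2 fun k hk => coeff_large x r k hk
    omega
  rw [Polynomial.eval_eq_sum_range' h]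
  simp

lemma nn_zero_right (x : ℚ) (m : ℕ) : nn x m 0 = 1 := by
  induction m with
  | zero => rfl
  | succ m ih => rw [nn, ih]; simp

lemma main (x : ℚ) (hx : x ≠ 0) (m : ℕ) : ∀ r : ℕ,
    ∑ k ∈ range (r + 1), (J x r).coeff k * nn x m k / x ^ (k * m) =
      ∏ i ∈ range r, (x ^ i / x ^ m - 1) := by
  induction m with
  | zero =>
    intro r
    have h1 : ∀ k, (J x r).coeff k * nn x 0 k / x ^ (k * 0) = (J x r).coeff k := by
      intro k; simp [nn]
    simp only [h1]
    rw [sum_coeff]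
    rcases r with _ | r
    · simp [J_zero]
    · rw [J, Polynomial.eval_prod, Finset.prod_eq_zero (i := 0) (by simp) (by simp),
        Finset.prod_eq_zero (i := 0) (by simp) (by simp)]
  | succ m ih =>
    intro r
    rcases r with _ | s
    · simp [J_zero, nn_zero_right]
    · set e : ℕ → ℚ := fun k => nn x m k / x ^ (k * m) with he
      have hxp : ∀ j : ℕ, x ^ j ≠ 0 := fun j => pow_ne_zero _ hx
      -- the left side in terms of e
      have h1 : ∀ k, (J x (s + 1)).coeff k * nn x (m + 1) k / x ^ (k * (m + 1)) =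
          (J x (s + 1)).coeff k / x ^ k * e k -
          (x ^ k - 1) * (x ^ (k - 1) - 1) * (J x (s + 1)).coeff k / x ^ k * e (k - 2) := by
        intro k
        rw [nn, he]
        rcases k with _ | _ | k
        · simp
        · simp
          ring
        · have a1 : k + 1 + 1 - 1 = k + 1 := by omega
          have a2 : k + 1 + 1 - 2 = k := by omega
          rw [a1, a2]
          simp only
          have b1 : x ^ ((k + 1 + 1) * (m + 1)) = x ^ (k + 1 + 1) * x ^ (k * m) * x ^ (2 * m) := by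
            rw [← pow_add, ← pow_add]; congr 1; ring
          have b2 : x ^ ((k + 1 + 1) * m) = x ^ (k * m) * x ^ (2 * m) := by
            rw [← pow_add]; congr 1; ring
          rw [b1, b2]
          have c1 := hxp (k * m)
          have c2 := hxp (2 * m)
          have c3 := hxp (k + 1 + 1)
          field_simp
      have h2 : ∑ k ∈ range (s + 1 + 1),
          (x ^ k - 1) * (x ^ (k - 1) - 1) * (J x (s + 1)).coeff k / x ^ k * e (k - 2) =
          ∑ k ∈ range (s + 1 + 1),
          (x ^ (k + 2) - 1) * (x ^ (k + 1) - 1) * (J x (s + 1)).coeff (k + 2) / x ^ (k + 2) *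
            e k := by
        rw [Finset.sum_range_succ', Finset.sum_range_succ']
        rw [Finset.sum_range_succ _ (s + 1), Finset.sum_range_succ _ s]
        rw [coeff_large x (s + 1) (s + 1 + 2) (by omega), coeff_large x (s + 1) (s + 2) (by omega)]
        simp
      have h3 : ∀ k, (J x (s + 1)).coeff k / x ^ k * e k -
          (x ^ (k + 2) - 1) * (x ^ (k + 1) - 1) * (J x (s + 1)).coeff (k + 2) / x ^ (k + 2) * e k =
          (1 / x ^ (s + 1)) * ((J x (s + 1)).coeff k * nn x m k / x ^ (k * m)) +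
          (1 / x ^ (s + 1) - 1) * ((J x s).coeff k * nn x m k / x ^ (k * m)) := by
        intro k
        have := key x hx s k
        rw [he]
        simp only
        linear_combination (nn x m k / x ^ (k * m)) * this
      simp only [h1]
      rw [Finset.sum_sub_distrib, h2, ← Finset.sum_sub_distrib]
      simp only [h3]
      rw [Finset.sum_add_distrib, ← Finset.mul_sum, ← Finset.mul_sum, ih (s + 1)]
      have h4 : ∑ k ∈ range (s + 1 + 1), (J x s).coeff k * nn x m k / x ^ (k * m) =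
          ∏ i ∈ range s, (x ^ i / x ^ m - 1) := by
        rw [Finset.sum_range_succ, coeff_large x s (s + 1) (by omega), ih s]
        simp
      rw [h4, Finset.prod_range_succ, Finset.prod_range_succ']
      have h5 : ∀ i ∈ range s, (x ^ (i + 1) / x ^ (m + 1) - 1) = (x ^ i / x ^ m - 1) := by
        intro i _
        rw [pow_succ, pow_succ, mul_div_mul_right _ _ hx]
      rw [Finset.prod_congr rfl h5]
      have c1 := hxp s
      have c2 := hxp m
      rw [pow_succ x s, pow_succ x m]
      field_simp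
      ring

end QAux

open QAux in
open Polynomial in
theorem taskQ (x : ℚ) (hx : x ≠ 0) (m r : ℕ) :
    ∑ k ∈ range (r + 1), (∏ i ∈ range r, (Polynomial.X - Polynomial.C (x ^ i)) : ℚ[X]).coeff k
        * nn x m k / x ^ (k * m) = ∏ i ∈ range r, (x ^ i / x ^ m - 1) :=
  main x hx m r

namespace QAux

lemma qInt_mul (x : ℚ) (k : ℕ) : qInt x k * (x - 1) = x ^ k - 1 := geom_sum_mul x k

lemma qInt_ne (x : ℚ) (hx : ∀ k : ℕ, 1 ≤ k → x ^ k ≠ 1) (k : ℕ) (hk : 1 ≤ k) : qInt x k ≠ 0 := by
  intro h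
  have := qInt_mul x k
  rw [h, zero_mul] at this
  exact hx k hk (by linarith)

lemma qFact_ne (x : ℚ) (hx : ∀ k : ℕ, 1 ≤ k → x ^ k ≠ 1) (k : ℕ) : qFact x k ≠ 0 :=
  Finset.prod_ne_zero_iff.2 fun i _ => qInt_ne x hx (i + 1) (by omega)

/-- `∏_{i<N} (x^m - x^i) = (∏ x^i) (x-1)^N [m][m-1]...[m-N+1]` -/
lemma prod_sub (x : ℚ) (m N : ℕ) (h : N ≤ m) :
    (∏ i ∈ range N, (x ^ m - x ^ i)) * qFact x (m - N) =
      (∏ i ∈ range N, x ^ i) * (x - 1) ^ N * qFact x m := by
  induction N with
  | zero => simp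
  | succ N ih =>
    have ih := ih (by omega)
    have e1 : x ^ m - x ^ N = x ^ N * (x - 1) * qInt x (m - N) := by
      have h1 := qInt_mul x (m - N)
      have h2 : x ^ m = x ^ N * x ^ (m - N) := by rw [← pow_add]; congr 1; omega
      rw [h2]
      linear_combination (-(x ^ N)) * h1
    have e2 : qFact x (m - N) = qFact x (m - (N + 1)) * qInt x (m - N) := by
      have h3 : m - N = m - (N + 1) + 1 := by omega
      rw [h3, qFact, Finset.prod_range_succ]
      rfl
    rw [Finset.prod_range_succ, Finset.prod_range_succ, e1]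
    rw [e2] at ih
    rw [pow_succ]
    linear_combination (x ^ N * (x - 1)) * ih

end QAux

open QAux in
/-- value of the coefficient; `n` odd, `x = -q` -/
theorem taskQ2 (x : ℚ) (hx : ∀ k : ℕ, 1 ≤ k → x ^ k ≠ 1) (hx0 : x ≠ 0) (n m : ℕ) (hn : Odd n) :
    (x ^ (n - 1) * qInt x n) ^ m * ∏ i ∈ range (n - 1), (x ^ i / x ^ m - 1) =
      kapVal x n (m + 1) * ∏ i ∈ range (n - 1), (x ^ (n - 1) - x ^ i) := by
  obtain ⟨t, ht⟩ := hn
  obtain ⟨N, hN⟩ : ∃ N, n = N + 1 := ⟨2 * t, by omega⟩
  have hev : Even N := ⟨t, by omega⟩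
  have hN1 : n - 1 = N := by omega
  rw [hN1, kapVal]
  by_cases hm : n ≤ m + 1
  · rw [if_pos hm]
    have hNm : N ≤ m := by omega
    have hxm : x ^ m ≠ 0 := pow_ne_zero _ hx0
    have e1 : ∏ i ∈ range N, (x ^ i / x ^ m - 1) = (∏ i ∈ range N, (x ^ m - x ^ i)) / x ^ (N * m) := by
      have h1 : ∀ i ∈ range N, (x ^ i / x ^ m - 1) = (-1) * ((x ^ m - x ^ i) / x ^ m) := by
        intro i _
        field_simp
        ring
      rw [Finset.prod_congr rfl h1, Finset.prod_mul_distrib, Finset.prod_const,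
        Finset.prod_div_distrib, Finset.prod_const, Finset.card_range, hev.neg_one_pow, one_mul,
        ← pow_mul, mul_comm m N]
    have h2 := prod_sub x m N hNm
    have h3 := prod_sub x N N le_rfl
    have f1 := qFact_ne x hx (m - N)
    have f2 := qFact_ne x hx N
    rw [Nat.sub_self] at h3
    have f0 : qFact x 0 = 1 := by simp [qFact]
    rw [f0, mul_one] at h3
    have h2' : ∏ i ∈ range N, (x ^ m - x ^ i) =
        (∏ i ∈ range N, x ^ i) * (x - 1) ^ N * qFact x m / qFact x (m - N) := by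
      rw [eq_div_iff f1, h2]
    rw [e1, h2', h3, hN1]
    have hxN : x ^ (N * m) ≠ 0 := pow_ne_zero _ hx0
    rw [mul_pow, ← pow_mul, qBinom, Nat.add_sub_cancel]
    field_simp
  · rw [if_neg hm, zero_mul]
    have hz : ∏ i ∈ range N, (x ^ i / x ^ m - 1) = 0 := by
      apply Finset.prod_eq_zero (i := m) (by simp; omega)
      rw [div_self (pow_ne_zero _ hx0), sub_self]
    rw [hz, mul_zero]

end Pool.Agent.MP_359fef_co
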